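import Pool.Agent.H752.PL.Stubs2
import Pool.Agent.H819R2.PL.Mach

/-!
# The machine that looks up a code, with memory `O((log n) ^ k)`

(adapted from helper819's `Pool.Agent.H819R2.PL.Mach`)
-/

set_option autoImplicit false

namespace Pool.Agent.H752.PL.K3

open Pool.Agent.NPC Pool.Agent.H620R2.Gauge Pool.Agent.H752.GE
open Pool.Agent.H583R2 Pool.Agent.H545R2.KS

/-- the next content of the memory -/
def mcNext (r c : ℕ) (s a : List Bool) : List Bool :=
  if s.headD false then
    false :: true :: List.replicate (r * (s.tail.length - 1 + r + 1) ^ c) false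
  else if s.tail.headD false then
    (if s.tail.tail.all id then [false, false, true] else false :: true :: incB s.tail.tail)
  else if s.tail.tail.headD false then
    (if a.isEmpty then [false, false, false, false]
      else false :: false :: false :: true :: a.headD false :: s.tail.tail.tail)
  else if s.tail.tail.tail.headD false then
    false :: false :: true :: incB s.tail.tail.tail.tail.tail
  else false :: false :: false :: false :: a

theorem mcNext_poly (r c : ℕ) : PolyTime (fun z => mcNext r c (spl z).1 (spl z).2) := by
  apply polyTime_of_pf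
  have h0 : PF (fun z : List Bool => (spl z).1) := PF.fst' (PF.spl PF.id)
  have ha : PF (fun z : List Bool => (spl z).2) := PF.snd' (PF.spl PF.id)
  have h1 := PF.tail h0
  have h2 := PF.tail h1
  have h3 := PF.tail h2
  have h4 := PF.tail h3
  have h5 := PF.tail h4
  have d : ∀ {l : List Bool → List Bool}, PF l → PF (fun s => (l s).headD false) :=
    fun h => PF.headD h (PF.const false)
  have cf : ∀ {l : List Bool → List Bool}, PF l → PF (fun s => false :: l s) :=
    fun h => PF.cons (PF.const false) h
  have ct : ∀ {l : List Bool → List Bool}, PF l → PF (fun s => true :: l s) :=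
    fun h => PF.cons (PF.const true) h
  unfold mcNext
  refine PF.ite (d h0) (cf (ct (PF.replicate (PF.mul (PF.const r) (pf_pow (PF.add (PF.add (PF.sub (PF.length h1)
    (PF.const 1)) (PF.const r)) (PF.const 1)) c)) (PF.const false))))
    (PF.ite (d h1) (PF.ite ?_ (PF.const _) (cf (ct (PF.incB h2))))
    (PF.ite (d h2) (PF.ite (PF.isEmpty ha) (PF.const _) (cf (cf (cf (ct (PF.cons (d ha) h3))))))
      (PF.ite (d h3) (cf (cf (ct (PF.incB h5)))) (cf (cf (cf (cf ha)))))))
  exact PF.all (f := fun _ b => id b) h2 PF.snd

/-- the machine -/
def mcM (e r c : ℕ) : MAlg where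
  act := mcAct e
  act_poly := mcAct_poly e
  next := fun z => mcNext r c (spl z).1 (spl z).2
  next_poly := mcNext_poly r c

theorem mcM_next (e r c : ℕ) (s a : List Bool) :
    (mcM e r c).next (pairBits s a) = mcNext r c s a := by
  show mcNext r c (spl (pairBits s a)).1 (spl (pairBits s a)).2 = _
  rw [spl_pairBits]

/-! ### the computation -/

section

variable (e r c : ℕ) (A : Oracle) (x : List Bool)

theorem mc_count {K : ℕ} : ∀ (n : ℕ) (w y : List Bool), w.length = K → val w + n + 1 = 2 ^ K →
    (mcM e r c).Reach A x (false :: true :: w) y →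
    (mcM e r c).Reach A x [false, false, true] (y ++ (List.replicate (n + 1) true ++ [false]))
  | 0, w, y, hw, hv, h => by
    have ha : w.all id = true := by
      by_contra ha
      have := mc_val_nall ha
      rw [hw] at this
      omega
    have h1 : (mcM e r c).act (false :: true :: w) = false :: [true, false] := by
      show (if w.all id then [false, true, false] else [false, true]) = _
      rw [if_pos ha]
    have h2 := h.write h1
    have h3 : (mcM e r c).next (pairBits (false :: true :: w) []) = [false, false, true] := by
      rw [mcM_next]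
      show (if w.all id then [false, false, true] else false :: true :: incB w) = _
      rw [if_pos ha]
    rw [h3] at h2
    exact h2
  | n + 1, w, y, hw, hv, h => by
    have ha : ¬ w.all id = true := by
      intro ha
      have := mc_val_all ha
      rw [hw] at this
      omega
    have h1 : (mcM e r c).act (false :: true :: w) = false :: [true] := by
      show (if w.all id then [false, true, false] else [false, true]) = _
      rw [if_neg ha]
    have h2 := h.write h1
    have h3 : (mcM e r c).next (pairBits (false :: true :: w) []) =
        false :: true :: incB w := by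
      rw [mcM_next]
      show (if w.all id then [false, false, true] else false :: true :: incB w) = _
      rw [if_neg ha]
    rw [h3] at h2
    have h4 := mc_count n (incB w) (y ++ [true]) ((mc_inc_len ha).trans hw)
      (by rw [mc_inc_val]; omega) h2
    rw [List.append_assoc] at h4
    exact h4

theorem mc_read {Y : List Bool} (h0 : (mcM e r c).Reach A x [false, false, true] Y) :
    ∀ n, n ≤ x.length → ∃ i, val i = n ∧
      (mcM e r c).Reach A x (false :: false :: true :: i) (Y ++ x.take n)
  | 0, _ => ⟨[], rfl, by rw [List.take_zero, List.append_nil]; exact h0⟩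
  | n + 1, hn => by
    obtain ⟨i, hi, h⟩ := mc_read h0 n (by omega)
    have hx : x[val i]? = some (x[n]'(by omega)) := by
      rw [hi]
      exact List.getElem?_eq_getElem (by omega)
    have h1 : (mcM e r c).act (false :: false :: true :: i) = true :: true :: i := rfl
    have h2 := h.read h1
    rw [hx, mcM_next] at h2
    have h3 : (mcM e r c).Reach A x
      (false :: false :: false :: true :: (x[n]'(by omega)) :: i) (Y ++ x.take n) := h2
    have h4 : (mcM e r c).act (false :: false :: false :: true :: (x[n]'(by omega)) :: i) =
      false :: [x[n]'(by omega)] := rfl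
    have h5 := h3.write h4
    rw [mcM_next] at h5
    refine ⟨incB i, by rw [mc_inc_val, hi], ?_⟩
    rw [List.take_succ_eq_append_getElem (by omega), ← List.append_assoc]
    exact h5

theorem mc_main : ∃ Y, Y = codeS (fun _ m => 2 ^ (r * (Nat.log 2 m + r + 1) ^ c)) e x ∧
    (mcM e r c).Reach A x [false, false, false, false, A Y] [] := by
  refine ⟨_, rfl, ?_⟩
  have h1 : (mcM e r c).act (true :: Nat.bits x.length) =
    false :: (List.replicate e true ++ [false]) := rfl
  have h2 := (MAlg.Reach.start (M := mcM e r c) (A := A) (x := x)).write h1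
  rw [mcM_next] at h2
  have h3 : (mcM e r c).Reach A x (false :: true ::
      List.replicate (r * (Nat.log 2 x.length + r + 1) ^ c) false)
      ([] ++ (List.replicate e true ++ [false])) := by
    have e1 : mcNext r c (true :: Nat.bits x.length) [] = false :: true ::
        List.replicate (r * (Nat.log 2 x.length + r + 1) ^ c) false := by
      rw [← mc_log]
      rfl
    rw [← e1]
    exact h2
  have hp : 0 < 2 ^ (r * (Nat.log 2 x.length + r + 1) ^ c) := by positivity
  have h4 := mc_count e r c A x (2 ^ (r * (Nat.log 2 x.length + r + 1) ^ c) - 1) _ _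
    List.length_replicate (by rw [mc_val_zero]; omega) h3
  rw [Nat.sub_add_cancel hp] at h4
  obtain ⟨i, hi, h5⟩ := mc_read e r c A x h4 x.length le_rfl
  have hx : x[val i]? = none := by
    rw [hi]
    exact List.getElem?_eq_none le_rfl
  have h6 : (mcM e r c).act (false :: false :: true :: i) = true :: true :: i := rfl
  have h7 := h5.read h6
  rw [hx, mcM_next] at h7
  have h8 : (mcM e r c).Reach A x [false, false, false, false] _ := h7
  have h9 := h8.ask (i := []) rfl
  rw [mcM_next] at h9
  have e2 : ([] ++ (List.replicate e true ++ [false]) ++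
      (List.replicate (2 ^ (r * (Nat.log 2 x.length + r + 1) ^ c)) true ++ [false]) ++
      List.take x.length x) =
      codeS (fun _ m => 2 ^ (r * (Nat.log 2 m + r + 1) ^ c)) e x := by
    unfold codeS
    rw [List.take_length]
    simp
  rw [e2] at h9
  exact h9

/-- the possible contents of the memory -/
def mcQ (s : List Bool) : Prop :=
  s = true :: Nat.bits x.length ∨
  (∃ w : List Bool, s = false :: true :: w ∧ w.length = r * (Nat.log 2 x.length + r + 1) ^ c) ∨
  (∃ i : List Bool, s = false :: false :: true :: i ∧ val i ≤ x.length ∧ mcC i) ∨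
  (∃ (b : Bool) (i : List Bool), s = false :: false :: false :: true :: b :: i ∧
    val i < x.length ∧ mcC i) ∨
  s = [false, false, false, false] ∨ ∃ b, s = [false, false, false, false, b]

theorem mcQ_reach {s y : List Bool} (h : (mcM e r c).Reach A x s y) : mcQ r c x s := by
  induction h with
  | start => exact Or.inl rfl
  | @write s y z _ ha ih =>
    rw [mcM_next]
    rcases ih with rfl | ⟨w, rfl, hw⟩ | ⟨i, rfl, _, _⟩ | ⟨b, i, rfl, hi, hC⟩ | rfl | ⟨b, rfl⟩
    · refine Or.inr (Or.inl ⟨List.replicate (r * (Nat.log 2 x.length + r + 1) ^ c) false, ?_,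
        List.length_replicate⟩)
      rw [← mc_log]
      rfl
    · by_cases hw2 : w.all id = true
      · refine Or.inr (Or.inr (Or.inl ⟨[], ?_, Nat.zero_le _, ?_⟩))
        · show (if w.all id then [false, false, true] else false :: true :: incB w) = _
          rw [if_pos hw2]
        · unfold mcC
          simp
      · refine Or.inr (Or.inl ⟨incB w, ?_, (mc_inc_len hw2).trans hw⟩)
        show (if w.all id then [false, false, true] else false :: true :: incB w) = _
        rw [if_neg hw2]
    · exact absurd ha (by show ¬ (true :: true :: i = false :: z); simp)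
    · exact Or.inr (Or.inr (Or.inl ⟨incB i, rfl, by rw [mc_inc_val]; exact hi, mcC_inc hC⟩))
    · exact absurd ha (by show ¬ ([true, false] = false :: z); simp)
    · exact absurd ha (by
        show ¬ ((if b then [true] else []) = false :: z)
        cases b <;> simp)
  | @read s y i _ ha ih =>
    rw [mcM_next]
    rcases ih with rfl | ⟨w, rfl, hw⟩ | ⟨i', rfl, hi, hC⟩ | ⟨b, i', rfl, hi, hC⟩ | rfl | ⟨b, rfl⟩
    · exact absurd ha (by
        show ¬ (false :: (List.replicate e true ++ [false]) = true :: true :: i)
        simp)
    · exact absurd ha (by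
        show ¬ ((if w.all id then [false, true, false] else [false, true]) = true :: true :: i)
        split_ifs <;> simp)
    · have e1 : i' = i := by
        have : true :: true :: i' = true :: true :: i := ha
        simpa using this
      subst e1
      rcases Nat.lt_or_ge (val i') x.length with h1 | h1
      · refine Or.inr (Or.inr (Or.inr (Or.inl ⟨x[val i'], i', ?_, h1, hC⟩)))
        rw [List.getElem?_eq_getElem h1]
        rfl
      · refine Or.inr (Or.inr (Or.inr (Or.inr (Or.inl ?_))))
        rw [List.getElem?_eq_none h1]
        rfl
    · exact absurd ha (by show ¬ ([false, b] = true :: true :: i); simp)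
    · exact absurd ha (by show ¬ ([true, false] = true :: true :: i); simp)
    · exact absurd ha (by
        show ¬ ((if b then [true] else []) = true :: true :: i)
        cases b <;> simp)
  | @ask s y i _ ha ih =>
    rw [mcM_next]
    rcases ih with rfl | ⟨w, rfl, hw⟩ | ⟨i', rfl, hi, hC⟩ | ⟨b, i', rfl, hi, hC⟩ | rfl | ⟨b, rfl⟩
    · exact absurd ha (by
        show ¬ (false :: (List.replicate e true ++ [false]) = true :: false :: i)
        simp)
    · exact absurd ha (by
        show ¬ ((if w.all id then [false, true, false] else [false, true]) = true :: false :: i)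
        split_ifs <;> simp)
    · exact absurd ha (by show ¬ (true :: true :: i' = true :: false :: i); simp)
    · exact absurd ha (by show ¬ ([false, b] = true :: false :: i); simp)
    · exact Or.inr (Or.inr (Or.inr (Or.inr (Or.inr ⟨A y, rfl⟩))))
    · exact absurd ha (by
        show ¬ ((if b then [true] else []) = true :: false :: i)
        cases b <;> simp)


theorem mcQ_len (hc : 1 ≤ c) {s : List Bool} (h : mcQ r c x s) :
    s.length ≤ (r * (r + 1) ^ c + 7) * (Nat.log 2 x.length + 1) ^ c := by
  have h1 : Nat.log 2 x.length + 1 ≤ (Nat.log 2 x.length + 1) ^ c :=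
    Nat.le_self_pow (by omega) _
  have h2 : r * (Nat.log 2 x.length + r + 1) ^ c ≤
      r * (r + 1) ^ c * (Nat.log 2 x.length + 1) ^ c := by
    rw [mul_assoc, ← mul_pow]
    apply Nat.mul_le_mul_left
    apply Nat.pow_le_pow_left
    nlinarith [Nat.zero_le (r * Nat.log 2 x.length)]
  have h3 : (r * (r + 1) ^ c + 7) * (Nat.log 2 x.length + 1) ^ c =
      r * (r + 1) ^ c * (Nat.log 2 x.length + 1) ^ c + 7 * (Nat.log 2 x.length + 1) ^ c := by
    ring
  rw [h3]
  have h4 : 0 ≤ r * (r + 1) ^ c * (Nat.log 2 x.length + 1) ^ c := Nat.zero_le _
  rcases h with rfl | ⟨w, rfl, hw⟩ | ⟨i, rfl, hi, hC⟩ | ⟨b, i, rfl, hi, hC⟩ | rfl | ⟨b, rfl⟩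
  · have := mc_bits_len x.length
    rw [List.length_cons]
    omega
  · rw [List.length_cons, List.length_cons, hw]
    omega
  · have := mcC_len hC hi
    simp only [List.length_cons]
    omega
  · have := mcC_len hC hi.le
    simp only [List.length_cons]
    omega
  · simp only [List.length_cons, List.length_nil]
    omega
  · simp only [List.length_cons, List.length_nil]
    omega

end

end Pool.Agent.H752.PL.K3

namespace Pool.Agent.H752.PL

open Pool.Agent.NPC Pool.Agent.H620R2.Gauge Pool.Agent.H752.GE K3

theorem t_machK : St_machK := by
  intro e r k A L hk hL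
  refine ⟨K3.mcM e r k, r * (r + 1) ^ k + 7, fun x =>
    ⟨fun s y h => K3.mcQ_len r k x hk (K3.mcQ_reach e r k A x h), ?_⟩⟩
  obtain ⟨Y, hY, h⟩ := K3.mc_main e r k A x
  refine ⟨_, _, h, ?_⟩
  have h1 := hL x
  rw [← hY] at h1
  have h2 : (K3.mcM e r k).act [false, false, false, false, A Y] =
    if A Y then [true] else [] := rfl
  rw [h2]
  by_cases hA : A Y = true
  · left
    exact ⟨h1.2 hA, by rw [if_pos hA]⟩
  · right
    exact ⟨fun hx => hA (h1.1 hx), by rw [if_neg hA]⟩

end Pool.Agent.H752.PL
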