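import Pool.Agent.H752.PL.Stubs2
import Pool.Agent.H752.GE.N10
import Pool.Agent.H620R2.Gauge.S

/-!
# Task K4: the codes are sparse (memory `O((log n) ^ k)`)

(adapted from helper411's `Pool.Agent.H411R2.PL.Sp`)
-/

namespace Pool.Agent.H752.PL

open Pool.Agent.NPC Pool.Agent.H620R2.Gauge Finset H568R2 Pool.Agent.H752.GE Filter

namespace K4sp

theorem eval_mono' (q : Polynomial ℕ) {a b : ℕ} (h : a ≤ b) : q.eval a ≤ q.eval b := by
  rw [Polynomial.eval_eq_sum_range, Polynomial.eval_eq_sum_range]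
  exact Finset.sum_le_sum fun i _ => Nat.mul_le_mul le_rfl (Nat.pow_le_pow_left h i)

theorem length_codeS (t : ℕ → ℕ → ℕ) (e : ℕ) (x : List Bool) :
    t e x.length ≤ (codeS t e x).length := by
  unfold codeS
  simp only [List.length_append, List.length_cons, List.length_replicate]
  omega

open Classical in
/-- counting -/
theorem count (ρ : ℕ → ℕ) (c : ℕ) (hρ : ∀ e, e + 1 ≤ ρ e) (N : ℕ) (g : ℕ)
    (hg : ∀ k : ℕ, k ^ c ≤ Nat.log 2 (Nat.log 2 N) → k ≤ g) :
    ((Finset.range N).filter (fun i => ∃ e x,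
        str i = codeS (fun e m => 2 ^ (ρ e * (Nat.log 2 m + ρ e + 1) ^ c)) e x)).card ≤
      g * 2 ^ (2 ^ g) := by
  set Y : ℕ := Nat.log 2 (Nat.log 2 N) with hY
  have hsub : (Finset.range N).filter (fun i => ∃ e x,
        str i = codeS (fun e m => 2 ^ (ρ e * (Nat.log 2 m + ρ e + 1) ^ c)) e x) ⊆
      (range g ×ˢ range (2 ^ (2 ^ g))).image fun p =>
        idx (codeS (fun e m => 2 ^ (ρ e * (Nat.log 2 m + ρ e + 1) ^ c)) p.1 (str p.2)) := by
    intro i hi
    rw [Finset.mem_filter, Finset.mem_range] at hi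
    obtain ⟨hiN, e, x, hs⟩ := hi
    rw [Finset.mem_image]
    have hlen : (str i).length = Nat.log 2 (i + 1) := length_str i
    have hlog : Nat.log 2 (i + 1) ≤ Nat.log 2 N := Nat.log_mono_right (by omega)
    have h3 : 2 ^ (ρ e * (Nat.log 2 x.length + ρ e + 1) ^ c) ≤ Nat.log 2 N := by
      refine le_trans (length_codeS (fun e m => 2 ^ (ρ e * (Nat.log 2 m + ρ e + 1) ^ c)) e x) ?_
      rw [← hs, hlen]
      exact hlog
    have h4' : ρ e * (Nat.log 2 x.length + ρ e + 1) ^ c ≤ Y := by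
      rw [hY]
      exact Nat.le_log_of_pow_le (by norm_num) h3
    have h4 : (Nat.log 2 x.length + ρ e + 1) ^ c ≤ Y := by
      refine le_trans ?_ h4'
      exact Nat.le_mul_of_pos_left _ (by have := hρ e; omega)
    have h5 : Nat.log 2 x.length + ρ e + 1 ≤ g := hg _ h4
    have h6 : x.length + 1 ≤ 2 ^ g := by
      have h7 : x.length < 2 ^ (Nat.log 2 x.length + 1) := Nat.lt_pow_succ_log_self (by norm_num) _
      have h8 : 2 ^ (Nat.log 2 x.length + 1) ≤ 2 ^ g :=
        Nat.pow_le_pow_right (by norm_num) (by omega)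
      omega
    refine ⟨(e, idx x), ?_, ?_⟩
    · rw [Finset.mem_product]
      have := hρ e
      refine ⟨Finset.mem_range.2 (show e < g by omega), Finset.mem_range.2 ?_⟩
      have h7 := idx_lt x
      have h8 : 2 ^ (x.length + 1) ≤ 2 ^ (2 ^ g) := Nat.pow_le_pow_right (by norm_num) h6
      show idx x < 2 ^ (2 ^ g)
      omega
    · show idx (codeS (fun e m => 2 ^ (ρ e * (Nat.log 2 m + ρ e + 1) ^ c)) e (str (idx x))) = i
      rw [str_idx, ← hs, idx_str]
  refine le_trans (Finset.card_le_card hsub) (le_trans Finset.card_image_le ?_)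
  rw [Finset.card_product, Finset.card_range, Finset.card_range]

end K4sp

open K4sp in
theorem t_spK : St_spK := by
  intro c q s hc hs
  choose C hC using fun e => N10.bound (q e) 1
  refine ⟨fun e => C e + e + 1, fun e m => ?_, ?_⟩
  · have h1 : m ≤ 2 * 2 ^ (1 * (Nat.log 2 m + 1)) + 1 + Nat.log 2 m := by
      have := Nat.lt_pow_succ_log_self (b := 2) (by norm_num) m
      rw [one_mul]
      omega
    refine lt_of_le_of_lt (le_trans (eval_mono' (q e) h1) (hC e (Nat.log 2 m))) ?_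
    refine Nat.pow_lt_pow_right (by norm_num) ?_
    set k := Nat.log 2 m with hk
    have h2 : k + (C e + e + 1) + 1 ≤ (k + (C e + e + 1) + 1) ^ c :=
      Nat.le_self_pow (by omega) _
    have h3 : C e * (k + 1) < (C e + e + 1) * (k + (C e + e + 1) + 1) := by
      calc C e * (k + 1) ≤ (C e + e + 1) * (k + 1) := Nat.mul_le_mul (by omega) le_rfl
        _ < (C e + e + 1) * (k + (C e + e + 1) + 1) :=
          Nat.mul_lt_mul_of_pos_left (by omega) (by omega)
    exact lt_of_lt_of_le h3 (Nat.mul_le_mul le_rfl h2)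
  have hc0 : (0 : ℝ) < c := by exact_mod_cast hc
  have hδ : 0 < s - 1 / (c : ℝ) := by linarith
  have hlim1 : Filter.Tendsto (fun N : ℕ => Real.logb 2 N) Filter.atTop Filter.atTop :=
    (Real.tendsto_logb_atTop (by norm_num)).comp tendsto_natCast_atTop_atTop
  have hlim : Filter.Tendsto (fun N : ℕ => Real.logb 2 (Real.logb 2 N)) Filter.atTop Filter.atTop :=
    (Real.tendsto_logb_atTop (by norm_num)).comp hlim1
  have hpow2 : Filter.Tendsto (fun L : ℝ => L ^ (s - 1 / (c : ℝ))) Filter.atTop Filter.atTop :=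
    tendsto_rpow_atTop hδ
  filter_upwards [hlim.eventually (Filter.eventually_ge_atTop 1),
    hlim.eventually (hpow2.eventually (Filter.eventually_ge_atTop 2)),
    hlim1.eventually (Filter.eventually_ge_atTop 1),
    Filter.eventually_ge_atTop 2] with N h1 h2 h3 hN
  set L := Real.logb 2 (Real.logb 2 N) with hL
  have hL0 : 0 < L := by linarith
  have hℓ : 1 ≤ Nat.log 2 N := Nat.log_pos (by norm_num) hN
  have hlogN : ((Nat.log 2 N : ℕ) : ℝ) ≤ Real.logb 2 N := by
    have := Real.natLog_le_logb N 2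
    exact_mod_cast this
  set Y : ℕ := Nat.log 2 (Nat.log 2 N) with hY
  have hYL : (Y : ℝ) ≤ L := by
    have h4 : (Y : ℝ) ≤ Real.logb 2 ((Nat.log 2 N : ℕ) : ℝ) := by
      have := Real.natLog_le_logb (Nat.log 2 N) 2
      exact_mod_cast this
    refine le_trans h4 (Real.logb_le_logb_of_le (by norm_num) ?_ hlogN)
    exact_mod_cast hℓ
  set g : ℕ := ⌊L ^ (1 / (c : ℝ))⌋₊ with hg
  have hgk : ∀ k : ℕ, k ^ c ≤ Y → k ≤ g := by
    intro k hk
    rw [hg]
    refine Nat.le_floor ?_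
    have h4 : (k : ℝ) ^ c ≤ L := le_trans (by exact_mod_cast hk) hYL
    have h7 : ((k : ℝ) ^ c) ^ (1 / (c : ℝ)) ≤ L ^ (1 / (c : ℝ)) :=
      Real.rpow_le_rpow (by positivity) h4 (by positivity)
    rwa [one_div, Real.pow_rpow_inv_natCast (by positivity) (by omega), ← one_div] at h7
  have hcount := count (fun e => C e + e + 1) c (fun e => by omega) N g hgk
  have hgL : ((g + 1 : ℕ) : ℝ) ≤ L ^ s := by
    have h4 : (g : ℝ) ≤ L ^ (1 / (c : ℝ)) := Nat.floor_le (by positivity)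
    have h5 : L ^ s = L ^ (1 / (c : ℝ)) * L ^ (s - 1 / (c : ℝ)) := by
      rw [← Real.rpow_add hL0]
      congr 1
      ring
    have h6 : (1 : ℝ) ≤ L ^ (1 / (c : ℝ)) := Real.one_le_rpow h1 (by positivity)
    push_cast
    rw [h5]
    nlinarith
  have hnat : g * 2 ^ (2 ^ g) ≤ 2 ^ (2 ^ (g + 1)) := by
    have h4 : g ≤ 2 ^ g := Nat.lt_two_pow_self.le
    have h5 : g ≤ 2 ^ (2 ^ g) := le_trans h4 Nat.lt_two_pow_self.le
    calc g * 2 ^ (2 ^ g) ≤ 2 ^ (2 ^ g) * 2 ^ (2 ^ g) := Nat.mul_le_mul h5 le_rfl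
      _ = 2 ^ (2 ^ (g + 1)) := by rw [← pow_add]; congr 1; ring
  refine le_trans (show _ ≤ ((2 ^ (2 ^ (g + 1)) : ℕ) : ℝ) by
    exact_mod_cast hcount.trans hnat) ?_
  calc ((2 ^ (2 ^ (g + 1)) : ℕ) : ℝ)
    _ = (2 : ℝ) ^ ((2 : ℝ) ^ ((g + 1 : ℕ) : ℝ)) := by
        rw [Real.rpow_natCast]
        push_cast
        rw [← Real.rpow_natCast 2 (2 ^ (g + 1))]
        push_cast
        rfl
    _ ≤ 2 ^ (2 : ℝ) ^ L ^ s := by
        refine Real.rpow_le_rpow_of_exponent_le (by norm_num) ?_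
        exact Real.rpow_le_rpow_of_exponent_le (by norm_num) hgL

end Pool.Agent.H752.PL
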